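import Mathlib

namespace Pool.Agent.Results.MP_d464c7_pr.NotAssoc
open MeasureTheory

/-- nondecreasing rearrangement -/
noncomputable def rearr {k : ℕ} (v : Fin k → ℝ) : Fin k → ℝ := v ∘ Tuple.sort v

/-- the vector `V` just after an arrival with service time `s` -/
noncomputable def V {k : ℕ} (w : Fin k → ℝ) (s : ℝ) : Fin k → ℝ :=
  rearr fun j => if j.val = 0 then w j + s else w j

/-- `π` is a stationary law of the workload vector -/
def Stationary {k : ℕ} (μT μS : Measure ℝ) (π : Measure (Fin k → ℝ)) : Prop :=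
  IsProbabilityMeasure π ∧ (∀ᵐ w ∂π, Monotone w ∧ ∀ j, 0 ≤ w j) ∧
    ∀ A : Set (Fin k → ℝ), MeasurableSet A →
      π A = (π.prod (μS.prod μT)) {x | (fun j => max (V x.1 x.2.1 j - x.2.2) 0) ∈ A}

/-- law of a nonnegative random variable with finite positive mean -/
def Admissible (μ : Measure ℝ) : Prop :=
  IsProbabilityMeasure μ ∧ (∀ᵐ x ∂μ, 0 ≤ x) ∧ Integrable id μ ∧ 0 < ∫ x, x ∂μ

/-- the family `V_1, V_2 - V_1, …, V_k - V_1, -T` as a function of `(W, S, T)` -/
noncomputable def family {k : ℕ} (hk : 0 < k) (x : (Fin k → ℝ) × ℝ × ℝ) : Fin (k + 1) → ℝ :=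
  Fin.snoc (α := fun _ => ℝ)
    (fun j => if j.val = 0 then V x.1 x.2.1 j else V x.1 x.2.1 j - V x.1 x.2.1 ⟨0, hk⟩) (-x.2.2)

/-- association, tested on bounded Borel coordinatewise nondecreasing functions -/
def Associated {Ω : Type} [MeasurableSpace Ω] (P : Measure Ω) {m : ℕ} (X : Ω → Fin m → ℝ) : Prop :=
  ∀ f g : (Fin m → ℝ) → ℝ, Monotone f → Monotone g → Measurable f → Measurable g →
    (∃ C, ∀ x, |f x| ≤ C) → (∃ C, ∀ x, |g x| ≤ C) →
      (∫ ω, f (X ω) ∂P) * (∫ ω, g (X ω) ∂P) ≤ ∫ ω, f (X ω) * g (X ω) ∂P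

lemma rearr_two (a b : ℝ) (h : b ≤ a) : rearr ![a, b] = ![b, a] := by
  have hm : Monotone (![a, b] ∘ Equiv.swap (0 : Fin 2) 1) := by
    intro i j hij
    fin_cases i <;> fin_cases j <;> simp_all
  have := (Tuple.comp_sort_eq_comp_iff_monotone (f := ![a, b]) (σ := Equiv.swap 0 1)).2 hm
  rw [rearr, ← this]
  funext i; fin_cases i <;> simp

lemma V_eq (w s : ℝ) (hw : w ≤ s) : V ![0, w] s = ![w, s] := by
  have : (fun j : Fin 2 => if j.val = 0 then ![0, w] j + s else ![0, w] j) = ![s, w] := by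
    funext i; fin_cases i <;> simp
  rw [V, this, rearr_two _ _ hw]

lemma family_eq (w s : ℝ) (hw : w ≤ s) :
    family (k := 2) (by norm_num) (![0, w], s, 1) = ![w, s - w, -1] := by
  funext i
  fin_cases i <;> simp [family, V_eq w s hw, Fin.snoc]

theorem result : ¬ ∀ (k : ℕ) (hk : 2 ≤ k) (μT μS : Measure ℝ), Admissible μT → Admissible μS →
    (∫ s, s ∂μS) / (k * ∫ t, t ∂μT) < 1 →
    ∀ π : Measure (Fin k → ℝ), Stationary μT μS π →
      Associated (π.prod (μS.prod μT)) (family (k := k) (by omega)) := by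
  intro h
  set μS : Measure ℝ := (2⁻¹ : NNReal) • Measure.dirac 1 + (2⁻¹ : NNReal) • Measure.dirac 2
    with hS
  set π : Measure (Fin 2 → ℝ) :=
    (2⁻¹ : NNReal) • Measure.dirac ![0, 0] + (2⁻¹ : NNReal) • Measure.dirac ![0, 1] with hπ
  have iS : ∀ f : ℝ → ℝ, Integrable f μS := fun f =>
    ((integrable_dirac (by simp)).smul_measure_nnreal).add_measure
      ((integrable_dirac (by simp)).smul_measure_nnreal)
  have eS : ∀ f : ℝ → ℝ, ∫ s, f s ∂μS = 2⁻¹ * f 1 + 2⁻¹ * f 2 := fun f => by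
    rw [hS, integral_add_measure ((integrable_dirac (by simp)).smul_measure_nnreal)
      ((integrable_dirac (by simp)).smul_measure_nnreal)]
    simp [integral_smul_nnreal_measure, NNReal.smul_def]
  have pS : IsProbabilityMeasure μS := ⟨by simp [hS, ENNReal.inv_two_add_inv_two]⟩
  have pπ : IsProbabilityMeasure π := ⟨by simp [hπ, ENNReal.inv_two_add_inv_two]⟩
  have eP : π.prod (μS.prod (Measure.dirac (1 : ℝ))) =
      (2⁻¹ : NNReal) • ((2⁻¹ : NNReal) • Measure.dirac (![0, 0], 1, 1)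
        + (2⁻¹ : NNReal) • Measure.dirac (![0, 1], 1, 1))
      + (2⁻¹ : NNReal) • ((2⁻¹ : NNReal) • Measure.dirac (![0, 0], 2, 1)
        + (2⁻¹ : NNReal) • Measure.dirac (![0, 1], 2, 1)) := by
    simp only [hπ, hS, Measure.add_prod, Measure.prod_add, Measure.prod_smul_left,
      Measure.prod_smul_right, Measure.dirac_prod_dirac]
  have eI : ∀ F : (Fin 2 → ℝ) × ℝ × ℝ → ℝ, ∫ x, F x ∂(π.prod (μS.prod (Measure.dirac (1 : ℝ))))
      = 2⁻¹ * (2⁻¹ * F (![0, 0], 1, 1) + 2⁻¹ * F (![0, 1], 1, 1))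
        + 2⁻¹ * (2⁻¹ * F (![0, 0], 2, 1) + 2⁻¹ * F (![0, 1], 2, 1)) := by
    intro F
    have i1 : ∀ a, Integrable F ((2⁻¹ : NNReal) • Measure.dirac a) := fun a =>
      (integrable_dirac (by simp)).smul_measure_nnreal
    rw [eP, integral_add_measure ((i1 _).add_measure (i1 _)).smul_measure_nnreal
      ((i1 _).add_measure (i1 _)).smul_measure_nnreal, integral_smul_nnreal_measure,
      integral_smul_nnreal_measure, integral_add_measure (i1 _) (i1 _),
      integral_add_measure (i1 _) (i1 _)]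
    simp [integral_smul_nnreal_measure, NNReal.smul_def, mul_add]
  have := h 2 le_rfl (Measure.dirac 1) μS
    ⟨inferInstance, by simp, integrable_dirac (by simp), by simp⟩
    ⟨pS, by
      rw [hS, ae_add_measure_iff]
      exact ⟨Measure.ae_smul_measure (by simp) _, Measure.ae_smul_measure (by simp) _⟩,
      iS _, by rw [eS]; norm_num⟩
    (by rw [eS]; norm_num) π
    ⟨pπ, by
      have m : ∀ a : ℝ, 0 ≤ a → Monotone ![0, a] ∧ ∀ j, 0 ≤ ![0, a] j := fun a ha =>
        ⟨fun i j hij => by fin_cases i <;> fin_cases j <;> simp_all,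
          fun j => by fin_cases j <;> simp [ha]⟩
      rw [hπ, ae_add_measure_iff]
      exact ⟨Measure.ae_smul_measure (by rw [ae_dirac_eq]; exact m 0 le_rfl) _,
        Measure.ae_smul_measure (by rw [ae_dirac_eq]; exact m 1 zero_le_one) _⟩,
      fun A _ => by
        have s1 : ∀ w : ℝ, w ≤ 1 → (fun j => max (V ![0, w] 1 j - 1) 0) = ![0, 0] := fun w hw => by
          rw [V_eq _ _ hw]; funext i; fin_cases i <;> simp [hw]
        have s2 : ∀ w : ℝ, w ≤ 1 → (fun j => max (V ![0, w] 2 j - 1) 0) = ![0, 1] := fun w hw => by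
          rw [V_eq _ _ (by linarith)]; funext i; fin_cases i
          · simp [hw]
          · simp; norm_num
        have t1 := s1 0 zero_le_one
        have t2 := s1 1 le_rfl
        have t3 := s2 0 zero_le_one
        have t4 := s2 1 le_rfl
        rw [eP]
        simp only [hπ, Measure.add_apply, Measure.smul_apply, Measure.dirac_apply]
        by_cases h0 : ![0, 0] ∈ A <;> by_cases h1 : ![0, 1] ∈ A <;>
          simp [Set.indicator, h0, h1, t1, t2, t3, t4, ENNReal.smul_def,
            ENNReal.inv_two_add_inv_two]⟩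
    (fun x => max 0 (min (x 0) 2)) (fun x => max 0 (min (x 1) 2))
    (fun x y hxy => max_le_max le_rfl (min_le_min (hxy 0) le_rfl))
    (fun x y hxy => max_le_max le_rfl (min_le_min (hxy 1) le_rfl))
    (by fun_prop) (by fun_prop)
    ⟨2, fun x => by
      rw [abs_of_nonneg (le_max_left _ _)]; exact max_le (by norm_num) (min_le_right _ _)⟩
    ⟨2, fun x => by
      rw [abs_of_nonneg (le_max_left _ _)]; exact max_le (by norm_num) (min_le_right _ _)⟩
  rw [eI, eI, eI, family_eq 0 1 (by norm_num), family_eq 1 1 (by norm_num),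
    family_eq 0 2 (by norm_num), family_eq 1 2 (by norm_num)] at this
  norm_num at this

end Pool.Agent.Results.MP_d464c7_pr.NotAssoc
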